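import Pool.Agent.W221.NS.Stm4
import Pool.Agent.W125.MD.ENST

/-!
Energy and dissipation of smooth periodic solutions of the Navier-Stokes equations with force.
-/

set_option autoImplicit false

open MeasureTheory Set Filter Topology
open scoped ContDiff

namespace Pool.Agent.W369.MH

open H459R3.NS W221.NS Pool.Agent.W125.MD

section

variable {ν T F : ℝ} {u : ℝ → V → V} {p : ℝ → V → ℝ} {f : ℝ → V → V}

theorem smooth_c (h : IsSolF ν T F u p f) (i : Fin 3) :
    ContDiffOn ℝ ∞ (fun z : ℝ × V => u z.1 z.2 i) (Ico 0 T ×ˢ univ) :=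
  (contDiffOn_pi.1 h.smooth_u) i

theorem sp (h : IsSolF ν T F u p f) {t : ℝ} (ht : t ∈ Ico 0 T) (i : Fin 3) :
    SP (fun y => u t y i) where
  smooth := contDiff_slice (f := fun t y => u t y i) (smooth_c h i) ht
  per := fun j x => by simp only [h.per_u t ht j x]

theorem sp_p (h : IsSolF ν T F u p f) {t : ℝ} (ht : t ∈ Ico 0 T) : SP (p t) where
  smooth := contDiff_slice h.smooth_p ht
  per := h.per_p t ht

theorem dt_eqF (h : IsSolF ν T F u p f) {t : ℝ} (ht : t ∈ Ioo 0 T) (i : Fin 3) (x : V) :
    dt (fun s y => u s y i) t x = ν * lap (fun y => u t y i) x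
      - conv (fun i y => u t y i) i x - pd i (p t) x + f t x i := by
  have h1 := h.momentum t ht x i
  unfold dt lap conv
  linarith

theorem cont_f (h : IsSolF ν T F u p f) {t : ℝ} (ht : t ∈ Ioo 0 T) (i : Fin 3) :
    Continuous (fun x => f t x i) := by
  have hI : t ∈ Ico 0 T := ⟨ht.1.le, ht.2⟩
  have e : (fun x => f t x i) = fun x => dt (fun s y => u s y i) t x
      - ν * lap (fun y => u t y i) x + conv (fun i y => u t y i) i x + pd i (p t) x := by
    funext x
    rw [dt_eqF h ht]
    ring
  rw [e]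
  have c1 : Continuous (dt (fun s y => u s y i) t) :=
    (contDiff_dt (f := fun s y => u s y i) (smooth_c h i) ht).continuous
  have c2 : Continuous (lap (fun y => u t y i)) := (sp h hI i).lap.cont
  have c3 : Continuous (conv (fun i y => u t y i) i) :=
    (sp_conv (v := fun i y => u t y i) (fun i => sp h hI i) i).cont
  have c4 : Continuous (pd i (p t)) := ((sp_p h hI).pd i).cont
  exact ((c1.sub (continuous_const.mul c2)).add c3).add c4

theorem energy_hasDerivAtF (h : IsSolF ν T F u p f) {t : ℝ} (ht : t ∈ Ioo 0 T) :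
    HasDerivAt (fun s => energy (u s))
      (-(2 * ν * enstrophy (u t)) + 2 * ∑ i, ∫ x in cube, u t x i * f t x i) t := by
  have hI : t ∈ Ico 0 T := ⟨ht.1.le, ht.2⟩
  set v : Fin 3 → V → ℝ := fun i y => u t y i with hv
  have hsp : ∀ i, SP (v i) := fun i => sp h hI i
  have hdiv : ∀ x, ∑ i, pd i (v i) x = 0 := h.divfree t hI
  have h1 : ∀ i, HasDerivAt (fun s => ∫ x in cube, u s x i ^ 2)
      (2 * ∫ x in cube, v i x * dt (fun s y => u s y i) t x) t := by
    intro i
    have hF : ContDiffOn ℝ 1 (fun z : ℝ × V => u z.1 z.2 i ^ 2) (Ioo 0 T ×ˢ univ) :=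
      (mono_Ioo (f := fun s y => u s y i) (smooth_c h i) (by norm_cast)).pow 2
    have key := hasDerivAt_int (F := fun s x => u s x i ^ 2) hF ht
    refine key.congr_deriv ?_
    rw [← integral_const_mul]
    congr 1
    funext x
    have h2 : HasDerivAt (fun s => u s x i) (dt (fun s y => u s y i) t x) t := by
      have := hasDerivAt_slice (F := fun s y => u s y i)
        (mono_Ioo (f := fun s y => u s y i) (smooth_c h i) (by norm_cast)) ht x
      rwa [← H459R3.NS.dt_eq (f := fun s y => u s y i) (smooth_c h i) ht x] at this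
    have h3 : HasDerivAt (fun s => u s x i ^ 2) _ t := h2.pow 2
    rw [h3.deriv]
    simp only [hv]
    push_cast
    ring
  have h2 : HasDerivAt (fun s => energy (u s))
      (∑ i, 2 * ∫ x in cube, v i x * dt (fun s y => u s y i) t x) t :=
    HasDerivAt.fun_sum fun i _ => h1 i
  refine h2.congr_deriv ?_
  have e1 : ∀ i, ∫ x in cube, v i x * dt (fun s y => u s y i) t x
      = ν * (∫ x in cube, lap (v i) x * v i x) - (∫ x in cube, v i x * conv v i x)
        - (∫ x in cube, v i x * pd i (p t) x) + ∫ x in cube, v i x * f t x i := by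
    intro i
    have e : ∀ x, v i x * dt (fun s y => u s y i) t x
        = ν * (lap (v i) x * v i x) - v i x * conv v i x - v i x * pd i (p t) x
          + v i x * f t x i := by
      intro x
      rw [dt_eqF h ht]
      ring
    simp_rw [e]
    have i1 : IntegrableOn (fun x => ν * (lap (v i) x * v i x)) cube :=
      ((hsp i).lap.mul (hsp i)).int.const_mul ν
    have i2 : IntegrableOn (fun x => v i x * conv v i x) cube :=
      ((hsp i).mul (sp_conv hsp i)).int
    have i3 : IntegrableOn (fun x => v i x * pd i (p t) x) cube :=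
      ((hsp i).mul ((sp_p h hI).pd i)).int
    have i4 : IntegrableOn (fun x => v i x * f t x i) cube :=
      integrableOn_cube ((hsp i).cont.mul (cont_f h ht i))
    have i12 : IntegrableOn (fun x => ν * (lap (v i) x * v i x) - v i x * conv v i x) cube :=
      i1.sub i2
    have i123 : IntegrableOn (fun x => ν * (lap (v i) x * v i x) - v i x * conv v i x
        - v i x * pd i (p t) x) cube := i12.sub i3
    rw [integral_add i123 i4, integral_sub i12 i3, integral_sub i1 i2, integral_const_mul]
  simp_rw [e1]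
  rw [← Finset.mul_sum, Finset.sum_add_distrib, Finset.sum_sub_distrib, Finset.sum_sub_distrib,
    int_conv hsp hdiv, int_press hsp hdiv (sp_p h hI), ← Finset.mul_sum]
  have e2 : ∑ i, ∫ x in cube, lap (v i) x * v i x = -enstrophy (u t) := by
    unfold enstrophy
    rw [← Finset.sum_neg_distrib]
    refine Finset.sum_congr rfl fun i _ => ?_
    rw [int_lap_mul (hsp i) (hsp i)]
    congr 1
    refine Finset.sum_congr rfl fun j _ => ?_
    congr 1
    funext x
    rw [sq]
  rw [e2]
  ring

theorem energy_cont (h : IsSolF ν T F u p f) :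
    ContinuousOn (fun s => energy (u s)) (Ico 0 T) := by
  unfold energy
  refine continuousOn_finsetSum _ fun i _ => ?_
  exact continuousOn_int (F := fun s x => u s x i ^ 2) ((smooth_c h i).continuousOn.pow 2)

theorem enstrophy_cont (h : IsSolF ν T F u p f) :
    ContinuousOn (fun s => enstrophy (u s)) (Ico 0 T) := by
  unfold enstrophy
  refine continuousOn_finsetSum _ fun i _ => continuousOn_finsetSum _ fun j _ => ?_
  exact continuousOn_int (F := fun s x => pd j (fun y => u s y i) x ^ 2)
    ((contDiffOn_pd (f := fun s y => u s y i) (smooth_c h i) j).continuousOn.pow 2)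

/-- The work of the force. -/
theorem work_le (hF : 0 ≤ F) (h : IsSolF ν T F u p f) {t : ℝ} (ht : t ∈ Ioo 0 T) :
    2 * ∑ i, ∫ x in cube, u t x i * f t x i ≤ energy (u t) + 3 * F ^ 2 := by
  have hI : t ∈ Ico 0 T := ⟨ht.1.le, ht.2⟩
  have h1 : ∀ i : Fin 3, 2 * ∫ x in cube, u t x i * f t x i ≤
      (∫ x in cube, u t x i ^ 2) + F ^ 2 := by
    intro i
    have c1 : Continuous (fun x => u t x i) := (sp h hI i).cont
    have c2 := cont_f h ht i
    have i1 : IntegrableOn (fun x => u t x i ^ 2) cube := integrableOn_cube (c1.pow 2)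
    have i2 : IntegrableOn (fun _ : V => F ^ 2) cube := integrableOn_cube continuous_const
    have e : (∫ x in cube, u t x i ^ 2) + F ^ 2 = ∫ x in cube, (u t x i ^ 2 + F ^ 2) := by
      rw [integral_add i1 i2]
      congr 1
      rw [setIntegral_const, measureReal_def, volume_cube]
      simp
    rw [e, ← integral_const_mul]
    refine integral_mono (integrableOn_cube (continuous_const.mul (c1.mul c2)))
      (integrableOn_cube ((c1.pow 2).add continuous_const)) fun x => ?_
    change 2 * (u t x i * f t x i) ≤ u t x i ^ 2 + F ^ 2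
    have h2 := (h.force t ht x (mem_univ x) i).1
    have h3 : f t x i ^ 2 ≤ F ^ 2 := by
      rw [← sq_abs]
      exact pow_le_pow_left₀ (abs_nonneg _) h2 2
    nlinarith [sq_nonneg (u t x i - f t x i)]
  have h4 : ∑ i : Fin 3, 2 * ∫ x in cube, u t x i * f t x i ≤
      ∑ i : Fin 3, ((∫ x in cube, u t x i ^ 2) + F ^ 2) := Finset.sum_le_sum fun i _ => h1 i
  rw [← Finset.mul_sum, Finset.sum_add_distrib] at h4
  simp only [Finset.sum_const, Finset.card_univ, Fintype.card_fin, nsmul_eq_mul] at h4
  unfold energy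
  push_cast at h4
  exact h4

/-- The energy is bounded. -/
theorem energy_bd (hν : 0 < ν) (hF : 0 ≤ F) (h : IsSolF ν T F u p f) {t : ℝ}
    (ht : t ∈ Ico 0 T) : energy (u t) ≤ Real.exp T * (energy (u 0) + 3 * F ^ 2) := by
  have h0 : (0 : ℝ) ∈ Ico 0 T := ⟨le_rfl, ht.1.trans_lt ht.2⟩
  have hcont : ContinuousOn (fun s => Real.exp (-s) * (energy (u s) + 3 * F ^ 2)) (Ico 0 T) :=
    (Real.continuous_exp.comp continuous_neg).continuousOn.mul
      ((energy_cont h).add continuousOn_const)
  have hd : ∀ s ∈ Ioo 0 T, HasDerivAt (fun s => Real.exp (-s) * (energy (u s) + 3 * F ^ 2))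
      (Real.exp (-s) * (-1) * (energy (u s) + 3 * F ^ 2) + Real.exp (-s) *
        (-(2 * ν * enstrophy (u s)) + 2 * ∑ i, ∫ x in cube, u s x i * f s x i)) s := by
    intro s hs
    exact ((hasDerivAt_neg s).exp).mul ((energy_hasDerivAtF h hs).add_const _)
  have hanti : AntitoneOn (fun s => Real.exp (-s) * (energy (u s) + 3 * F ^ 2)) (Ico 0 T) := by
    refine antitoneOn_of_deriv_nonpos (convex_Ico 0 T) hcont ?_ ?_
    · rw [interior_Ico]
      intro s hs
      exact (hd s hs).differentiableAt.differentiableWithinAt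
    · rw [interior_Ico]
      intro s hs
      rw [(hd s hs).deriv]
      have h1 := work_le hF h hs
      have h2 := enstrophy_nonneg (u s)
      have h3 : 0 < Real.exp (-s) := Real.exp_pos _
      have h4 : 0 ≤ 2 * ν * enstrophy (u s) := by positivity
      have h5 : Real.exp (-s) * (-1) * (energy (u s) + 3 * F ^ 2) + Real.exp (-s) *
          (-(2 * ν * enstrophy (u s)) + 2 * ∑ i, ∫ x in cube, u s x i * f s x i) =
          Real.exp (-s) * ((2 * ∑ i, ∫ x in cube, u s x i * f s x i) -
            (energy (u s) + 3 * F ^ 2) - 2 * ν * enstrophy (u s)) := by ring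
      rw [h5]
      exact mul_nonpos_of_nonneg_of_nonpos h3.le (by linarith)
  have h6 := hanti h0 ht ht.1
  simp only [neg_zero, Real.exp_zero, one_mul] at h6
  have h7 : energy (u t) + 3 * F ^ 2 ≤ Real.exp t * (energy (u 0) + 3 * F ^ 2) := by
    have h8 : energy (u t) + 3 * F ^ 2 =
        Real.exp t * (Real.exp (-t) * (energy (u t) + 3 * F ^ 2)) := by
      rw [← mul_assoc, ← Real.exp_add, add_neg_cancel, Real.exp_zero, one_mul]
    rw [h8]
    exact mul_le_mul_of_nonneg_left h6 (Real.exp_pos t).le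
  have h9 : Real.exp t * (energy (u 0) + 3 * F ^ 2) ≤ Real.exp T * (energy (u 0) + 3 * F ^ 2) := by
    have := energy_nonneg (u 0)
    exact mul_le_mul_of_nonneg_right (Real.exp_le_exp.2 ht.2.le) (by positivity)
  have h10 : 0 ≤ 3 * F ^ 2 := by positivity
  linarith

/-- The dissipation. -/
theorem int_enstF (hν : 0 < ν) (hF : 0 ≤ F) (h : IsSolF ν T F u p f) {b : ℝ} (hb0 : 0 ≤ b)
    (hb : b < T) :
    ∫ t in (0 : ℝ)..b, enstrophy (u t) ≤
      (energy (u 0) + (Real.exp T * (energy (u 0) + 3 * F ^ 2) + 3 * F ^ 2) * T) / (2 * ν) := by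
  have hsub : Icc 0 b ⊆ Ico 0 T := fun s hs => ⟨hs.1, hs.2.trans_lt hb⟩
  have hν2 : 0 < 2 * ν := by linarith
  set K : ℝ := Real.exp T * (energy (u 0) + 3 * F ^ 2) + 3 * F ^ 2 with hK
  have hK0 : 0 ≤ K := by
    have := energy_nonneg (u 0)
    positivity
  have hc : ContinuousOn (fun s => (-energy (u s) + K * s) / (2 * ν)) (Icc 0 b) :=
    ((((energy_cont h).mono hsub).neg).add (continuousOn_const.mul continuousOn_id)).div_const _
  have hd : ∀ s ∈ Ioo 0 b, HasDerivWithinAt (fun s => (-energy (u s) + K * s) / (2 * ν))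
      ((-(-(2 * ν * enstrophy (u s)) + 2 * ∑ i, ∫ x in cube, u s x i * f s x i) + K * 1) /
        (2 * ν)) (Ioi s) s := by
    intro s hs
    exact ((((energy_hasDerivAtF h ⟨hs.1, hs.2.trans hb⟩).neg).add
      ((hasDerivAt_id s).const_mul K)).div_const (2 * ν)).hasDerivWithinAt
  have hi : IntegrableOn (fun s => enstrophy (u s)) (Icc 0 b) :=
    ((enstrophy_cont h).mono hsub).integrableOn_Icc
  have h1 := intervalIntegral.integral_le_sub_of_hasDeriv_right_of_le hb0 hc hd hi (by
    intro s hs
    have h2 := work_le hF h ⟨hs.1, hs.2.trans hb⟩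
    have h3 := energy_bd hν hF h (t := s) ⟨hs.1.le, hs.2.trans hb⟩
    rw [le_div_iff₀ hν2, mul_one]
    have h4 : 2 * ∑ i, ∫ x in cube, u s x i * f s x i ≤ K := by
      rw [hK]
      linarith
    linarith)
  refine h1.trans ?_
  have h5 := energy_nonneg (u b)
  have h6 : K * b ≤ K * T := mul_le_mul_of_nonneg_left hb.le hK0
  rw [← sub_div]
  refine div_le_div_of_nonneg_right ?_ hν2.le
  simp only [mul_zero, add_zero, sub_neg_eq_add]
  linarith

end

theorem t_PEN3 : S_PEN3 := by
  intro ν T F u p f hν hT hF h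
  refine ⟨⟨√(Real.exp T * (energy (u 0) + 3 * F ^ 2)), Real.sqrt_nonneg _, ?_⟩, ?_⟩
  · intro t ht
    have := energy_nonneg (u 0)
    rw [Real.sq_sqrt (by positivity)]
    exact energy_bd hν hF h ⟨ht.1.le, ht.2⟩
  · have hb : ∀ n : ℕ, 0 ≤ T - T / ((n : ℝ) + 1) ∧ T - T / ((n : ℝ) + 1) < T := by
      intro n
      have h1 : (0 : ℝ) < (n : ℝ) + 1 := by positivity
      have h2 : T / ((n : ℝ) + 1) ≤ T := by
        rw [div_le_iff₀ h1]
        nlinarith [Nat.cast_nonneg (α := ℝ) n]
      have h3 : 0 < T / ((n : ℝ) + 1) := by positivity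
      exact ⟨by linarith, by linarith⟩
    have htend : Tendsto (fun n : ℕ => T - T / ((n : ℝ) + 1)) atTop (𝓝 T) := by
      have h1 : Tendsto (fun n : ℕ => T / ((n : ℝ) + 1)) atTop (𝓝 0) := by
        have := (tendsto_one_div_add_atTop_nhds_zero_nat (𝕜 := ℝ)).const_mul T
        simpa [div_eq_mul_inv] using this
      simpa using h1.const_sub T
    have key : IntegrableOn (fun t => enstrophy (u t)) (Ioc 0 T) := by
      refine integrableOn_Ioc_of_intervalIntegral_norm_bounded_right
        (I := (energy (u 0) + (Real.exp T * (energy (u 0) + 3 * F ^ 2) + 3 * F ^ 2) * T) /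
          (2 * ν)) (b := fun n : ℕ => T - T / ((n : ℝ) + 1)) (l := atTop)
        (fun n => ?_) htend (Filter.Eventually.of_forall fun n => ?_)
      · have hsub : Icc 0 (T - T / ((n : ℝ) + 1)) ⊆ Ico 0 T :=
          fun s hs => ⟨hs.1, hs.2.trans_lt (hb n).2⟩
        exact (((enstrophy_cont h).mono hsub).integrableOn_Icc).mono_set Ioc_subset_Icc_self
      · rw [← intervalIntegral.integral_of_le (hb n).1]
        have h1 := int_enstF hν hF h (hb n).1 (hb n).2
        refine le_trans (le_of_eq ?_) h1
        refine intervalIntegral.integral_congr fun t _ => ?_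
        exact Real.norm_of_nonneg (enstrophy_nonneg (u t))
    exact key.mono_set Ioo_subset_Ioc_self

end Pool.Agent.W369.MH
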